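import Pool.Agent.H52.V.S8.TH842.A3.Defs
import Pool.Agent.H52.V.S8.H393R2.DC.Digits

/-!
# Asymptotic assembly for the exponent 3 theorem (job A3-ASYM)
-/

set_option autoImplicit false

namespace Pool.Agent.TH698.A3

open Finset Polynomial Filter Topology
open Pool.Agent.H393R2.DC (S Pol V Dn digit)
open Pool.Agent.H323R2.Gen (badG NR vv badG_card)
open Pool.Agent.TH842.A3

/-- the finite form -/
theorem finite3 {f : ℤ[X]} {d b : ℕ} {U : ℕ → ℤ} {c g F : ℕ} (hSP : SPh f d b U c g F)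
    (hW : WalkPow F) (N K Q P e Z ℓ : ℕ) (QQ : Finset ℕ)
    (hQQ : ∀ q ∈ QQ, q.Prime ∧ q ≤ Q ∧ c ≤ q ∧ (b : ZMod q) ≠ 0 ∧
      ∀ a : ZMod q, (f.map (Int.castRingHom (ZMod q))).eval a ≠ 0)
    (hbad : ∀ q ∈ QQ, (badG f d b (Pol b U N) q N).card ≤ e)
    (hbad2 : ((range (N + 1)).filter (fun R => S b (f.comp (Pol b U N)) R ≠ 0)).card ≤ e)
    (hP : ∀ q ∈ QQ, c * ((Dn b U N).card + 1) ^ g ≤ (q ^ F) ^ P)
    (hsz : c * (e + 1) ^ g * ((Dn b U N).card + 1) ^ g * (Q ^ F) ^ (g * K + g * P) *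
      ((Q ^ F) ^ K * Z + 1) ≤ N)
    (hZ : 2 * ℓ * (Q ^ F) ^ (2 * ℓ) * (e * (Q ^ F) ^ (g * K + g * P + g) + 1) < Z)
    (hl : (Dn b U N).card < 3 ^ ℓ) (hl2 : c * (K + 1) ≤ 2 ^ ℓ) :
    QQ.card * (K - c * P) * K ≤ c * P * (P * ℓ) * (5 * ℓ * (Dn b U N).card) := by
  classical
  have hex : ∀ q : ℕ, ∃ (A : Finset ℕ) (δ : ℕ → ℕ → ℕ), q ∈ QQ → ((∀ u ∈ A, (Q ^ F) ^ K * Z ≤ u) ∧
    (∀ u ∈ A, ∀ k ≤ K, δ u k ∈ Dn b U N ∧ u < (q ^ F) ^ k * δ u k ∧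
      (q ^ F) ^ k * δ u k ≤ u + (e * (Q ^ F) ^ (g * K + g * P + g) + 1)) ∧
    (∀ u ∈ A, ∀ u' ∈ A, ∀ k ≤ K, ∀ k' ≤ K, δ u k = δ u' k' → u = u' ∧ k = k') ∧
    K ≤ c * P * (P * A.card * ℓ + 1)) := by
    intro q
    by_cases hq : q ∈ QQ
    · obtain ⟨hqp, hqQ, hqc, hqb, hqf⟩ := hQQ q hq
      have : Fact q.Prime := ⟨hqp⟩
      have hqF : q ^ F ≤ Q ^ F := Nat.pow_le_pow_left hqQ F
      obtain ⟨A, δ, h1, h2, h3, h4⟩ := hSP q N K P ℓ e ((Q ^ F) ^ K * Z) ((Dn b U N).card + 1)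
        hqc hqb hqf (hbad q hq) hbad2 le_rfl (hP q hq) (by
          refine le_trans ?_ hsz
          gcongr) hl2
      refine ⟨A, δ, fun _ => ⟨h1, ?_, h3, h4⟩⟩
      intro u hu k hk
      obtain ⟨g1, g2, g3⟩ := h2 u hu k hk
      refine ⟨g1, g2, g3.trans ?_⟩
      have : e * (q ^ F) ^ (g * K + g * P + g) ≤ e * (Q ^ F) ^ (g * K + g * P + g) := by gcongr
      omega
    · exact ⟨∅, fun _ _ => 0, fun h => absurd h hq⟩
  choose A δ hA using hex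
  have hw := hW QQ (Q ^ F) K (e * (Q ^ F) ^ (g * K + g * P + g) + 1) Z ℓ
    (fun q hq => (hQQ q hq).1) (fun q hq => Nat.pow_le_pow_left (hQQ q hq).2.1 F) (Dn b U N) A δ
    (fun q hq u hu k hk => (hA q hq).2.1 u hu k hk)
    (fun q hq u hu u' hu' k hk k' hk' h => (hA q hq).2.2.1 u hu u' hu' k hk k' hk' h)
    (fun q hq u hu => (hA q hq).1 u hu) hZ hl
  calc QQ.card * (K - c * P) * K = ∑ q ∈ QQ, (K - c * P) * K := by
        rw [Finset.sum_const, smul_eq_mul]; ring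
    _ ≤ ∑ q ∈ QQ, (c * P * (P * (A q).card * ℓ)) * K := by
        refine Finset.sum_le_sum (fun q hq => Nat.mul_le_mul_right _ ?_)
        have h1 := (hA q hq).2.2.2
        have h2 : c * P * (P * (A q).card * ℓ + 1) = c * P * (P * (A q).card * ℓ) + c * P := by ring
        omega
    _ = c * P * (P * ℓ) * ∑ q ∈ QQ, (A q).card * K := by
        rw [Finset.mul_sum]
        exact Finset.sum_congr rfl (fun q _ => by ring)
    _ ≤ _ := Nat.mul_le_mul_left _ hw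

/-- eventual conditions -/
lemma ev_cond (κ c0 F1 A B : ℝ) (hκ : 0 < κ) (hc0 : 0 < c0) (M : ℕ) : ∃ X : ℝ, ∀ x : ℝ, X ≤ x →
    x ^ M ≤ Real.exp (x / κ) ∧ A * (1 + x ^ 3) ≤ x ^ 4 ∧ 1 ≤ Real.log x ∧
      B ≤ x / (c0 * Real.log x) ∧ 10 ≤ Real.exp (x / κ) ∧ 10 ≤ x ∧
      F1 * (Real.log x) ^ 2 ≤ x / κ ∧ x ≤ (x / (c0 * Real.log x)) ^ 2 ∧
      8 * Real.log x ≤ x := by
  have hpow : ∀ k : ℕ, ∀ c : ℝ, 0 < c → ∀ᶠ x : ℝ in atTop, x ^ k ≤ c * Real.exp x := by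
    intro k c hc
    have h := Real.tendsto_pow_mul_exp_neg_atTop_nhds_zero k
    have h4 := h.eventually_le_const hc
    filter_upwards [h4] with x hx
    have he : 0 < Real.exp x := Real.exp_pos _
    rwa [Real.exp_neg, ← div_eq_mul_inv, div_le_iff₀ he] at hx
  have hdiv : Tendsto (fun x : ℝ => x / κ) atTop atTop :=
    tendsto_id.atTop_div_const hκ
  have h1 : ∀ᶠ x : ℝ in atTop, x ^ M ≤ Real.exp (x / κ) := by
    have h := hdiv.eventually (hpow M (1 / κ ^ M) (by positivity))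
    filter_upwards [h] with x hx
    rw [div_pow, one_div, ← div_eq_inv_mul] at hx
    exact (div_le_div_iff_of_pos_right (by positivity)).1 hx
  have h2 : ∀ᶠ x : ℝ in atTop, A * (1 + x ^ 3) ≤ x ^ 4 := by
    filter_upwards [eventually_ge_atTop (1 : ℝ), eventually_ge_atTop (2 * |A|)] with x hx1 hx2
    have hA := le_abs_self A
    have h3 : A * (1 + x ^ 3) ≤ |A| * (1 + x ^ 3) := mul_le_mul_of_nonneg_right hA (by positivity)
    have h4 : 1 + x ^ 3 ≤ 2 * x ^ 3 := by nlinarith [one_le_pow₀ (n := 3) hx1]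
    have h5 : |A| * (1 + x ^ 3) ≤ |A| * (2 * x ^ 3) := mul_le_mul_of_nonneg_left h4 (abs_nonneg _)
    have h6 : |A| * (2 * x ^ 3) ≤ x * x ^ 3 := by nlinarith [pow_nonneg (by linarith : 0 ≤ x) 3]
    calc A * (1 + x ^ 3) ≤ x * x ^ 3 := by linarith
      _ = x ^ 4 := by ring
  have h3 : ∀ᶠ x : ℝ in atTop, 1 ≤ Real.log x := Real.tendsto_log_atTop.eventually_ge_atTop 1
  have hlogx : ∀ ε : ℝ, 0 < ε → ∀ᶠ x : ℝ in atTop, Real.log x ≤ ε * x := by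
    intro ε hε
    have h1 : Tendsto (fun x : ℝ => Real.log x / x) atTop (𝓝 0) :=
      Real.isLittleO_log_id_atTop.tendsto_div_nhds_zero
    have h5 := h1.eventually_le_const hε
    filter_upwards [h5, eventually_gt_atTop (1 : ℝ)] with x hx hx1
    rwa [div_le_iff₀ (by linarith)] at hx
  have h4 : ∀ᶠ x : ℝ in atTop, B ≤ x / (c0 * Real.log x) := by
    filter_upwards [hlogx (1 / (c0 * (|B| + 1))) (by positivity), eventually_gt_atTop (1 : ℝ),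
      h3] with x hx hx1 hx3
    have hx0 : 0 < x := by linarith
    rw [le_div_iff₀ (by positivity)]
    have hB := le_abs_self B
    have h5 : c0 * (|B| + 1) * Real.log x ≤ x := by
      calc c0 * (|B| + 1) * Real.log x
          ≤ c0 * (|B| + 1) * (1 / (c0 * (|B| + 1)) * x) := by gcongr
        _ = x := by field_simp
    have h6 : 0 ≤ c0 * Real.log x := by positivity
    nlinarith
  have h5 : ∀ᶠ x : ℝ in atTop, 10 ≤ Real.exp (x / κ) :=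
    (Real.tendsto_exp_atTop.comp hdiv).eventually_ge_atTop _
  have h6 : ∀ᶠ x : ℝ in atTop, (10 : ℝ) ≤ x := eventually_ge_atTop _
  have h7 : ∀ᶠ x : ℝ in atTop, F1 * (Real.log x) ^ 2 ≤ x / κ := by
    have h := Real.tendsto_log_atTop.eventually (hpow 2 (1 / ((|F1| + 1) * κ)) (by positivity))
    filter_upwards [h, eventually_gt_atTop (0 : ℝ)] with x hx hx0
    rw [Real.exp_log hx0] at hx
    calc F1 * (Real.log x) ^ 2 ≤ (|F1| + 1) * (Real.log x) ^ 2 := by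
          gcongr
          linarith [le_abs_self F1]
      _ ≤ (|F1| + 1) * (1 / ((|F1| + 1) * κ) * x) := by gcongr
      _ = x / κ := by field_simp
  have h8 : ∀ᶠ x : ℝ in atTop, x ≤ (x / (c0 * Real.log x)) ^ 2 := by
    have h := Real.tendsto_log_atTop.eventually (hpow 2 (1 / c0 ^ 2) (by positivity))
    filter_upwards [h, eventually_gt_atTop (0 : ℝ), h3] with x hx hx0 hx3
    rw [Real.exp_log hx0] at hx
    rw [div_pow, mul_pow, le_div_iff₀ (by positivity)]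
    calc x * (c0 ^ 2 * Real.log x ^ 2) ≤ x * (c0 ^ 2 * (1 / c0 ^ 2 * x)) := by gcongr
      _ = x ^ 2 := by field_simp
  have h9 : ∀ᶠ x : ℝ in atTop, 8 * Real.log x ≤ x := by
    filter_upwards [hlogx (1 / 8) (by norm_num)] with x hx
    linarith
  obtain ⟨X, hX⟩ := eventually_atTop.1
    (h1.and (h2.and (h3.and (h4.and (h5.and (h6.and (h7.and (h8.and h9))))))))
  exact ⟨X, fun x hx => hX x hx⟩

lemma L3 {y a b c d f g : ℝ} {G : ℕ} (hy : 0 ≤ y) (_ha : 0 ≤ a) (hb : 0 ≤ b) (hc : 0 ≤ c) (hd : 0 ≤ d)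
    (hf : 0 ≤ f) (hg : 0 ≤ g) (ha' : a ≤ y) (hb' : b ≤ y ^ G) (hc' : c ≤ y) (hd' : d ≤ y)
    (hf' : f ≤ y) (hg' : g ≤ y ^ 9) :
    a * b * c * (d * f) * g ≤ y * y ^ G * y * (y * y) * y ^ 9 := by
  gcongr

lemma L5 {a Q B t : ℝ} (ha : 0 ≤ a) (hQ : 2 * t ≤ Q) (hQ0 : 0 ≤ Q) (h : a * (Q - t) * Q ≤ B) :
    a * (Q / 2) * Q ≤ B := by
  refine le_trans ?_ h
  gcongr
  linarith

lemma L6 {a b a' : ℝ} {Q : ℝ} (ha : a ≤ a') (ha0 : 0 ≤ a) (hb : b ≤ Q) (hb0 : 0 ≤ b) :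
    a * (b / 2) * b ≤ a' * (Q / 2) * Q := by
  have hQ0 : 0 ≤ Q := hb0.trans hb
  have ha0' : 0 ≤ a' := ha0.trans ha
  gcongr

lemma L7 {l m lam c P : ℝ} (hm : 0 ≤ m) (hc : 0 ≤ c) (hP : 0 ≤ P) (hl0 : 0 ≤ l) (hl : l ≤ 4 * lam) :
    c * P * (P * l) * (5 * l * m) ≤ (c + 1) * P * (P * (4 * lam)) * (5 * (4 * lam) * m) := by
  have hlam : 0 ≤ 4 * lam := hl0.trans hl
  gcongr
  linarith

lemma c0_ge {d κ F g : ℝ} (hd : 2 ≤ d) (hκ : 13 ≤ κ) (hF : 1 ≤ F) (hg : 0 ≤ g) :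
    2 ≤ 4 * d * κ * F * (g + 1) := by
  have h1 : 2 ≤ 4 * d * κ := by nlinarith
  have h3 : 2 * 1 ≤ 4 * d * κ * F := by gcongr
  have h4 : 2 * 1 * 1 ≤ 4 * d * κ * F * (g + 1) := by
    gcongr
    linarith
  linarith

lemma N4 {y : ℝ} (hy : 2 ≤ y) : y * (y * y) + 1 ≤ y ^ 4 := by
  have h3 : 1 ≤ y ^ 3 := one_le_pow₀ (by linarith)
  have h4 : y ^ 4 = y * y ^ 3 := by ring
  nlinarith

lemma N7 {y : ℝ} (hy : 2 ≤ y) : y * y * y ^ 4 + 1 ≤ y ^ 7 := by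
  have h3 : 1 ≤ y ^ 6 := one_le_pow₀ (by linarith)
  have h4 : y ^ 7 = y * y ^ 6 := by ring
  have h5 : y * y * y ^ 4 = y ^ 6 := by ring
  nlinarith

lemma N9 {y : ℝ} (hy : 2 ≤ y) : y * y ^ 7 + 1 ≤ y ^ 9 := by
  have h3 : 1 ≤ y ^ 8 := one_le_pow₀ (by linarith)
  have h4 : y ^ 9 = y * y ^ 8 := by ring
  have h5 : y * y ^ 7 = y ^ 8 := by ring
  nlinarith

lemma Nm {m x : ℝ} (hx : 10 ≤ x) (h : m ≤ x ^ 3) : m + 1 ≤ x ^ 4 := by
  have h1 : x ^ 4 = x * x ^ 3 := by ring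
  have h2 : 1 ≤ x ^ 3 := one_le_pow₀ (by linarith)
  nlinarith

lemma Ng2 {e y : ℝ} (g : ℕ) (he : 0 ≤ e) (hy : 2 ≤ y) (h : e ≤ y) : (e + 1) ^ g ≤ y ^ (2 * g) := by
  rw [pow_mul]
  apply pow_le_pow_left₀ (by linarith)
  nlinarith

lemma Ng3 {m x y : ℝ} (g : ℕ) (hm : 0 ≤ m) (h : m + 1 ≤ x ^ 4) (hy : x ^ (4 * g) ≤ y) :
    (m + 1) ^ g ≤ y := by
  refine le_trans (pow_le_pow_left₀ (by linarith) h g) ?_
  rwa [← pow_mul]

lemma Nfin {c m q x Q : ℝ} (g F P : ℕ) (hF : 1 ≤ F) (hP : P = 16 * g + 1) (hm : 0 ≤ m)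
    (hq1 : 1 ≤ q) (hc : c ≤ q) (hx0 : 0 ≤ x) (hQ0 : 0 ≤ Q) (hxQ : x ≤ Q ^ 2) (hQq : Q ≤ q ^ 2)
    (hmx : m + 1 ≤ x ^ 4) : c * (m + 1) ^ g ≤ (q ^ F) ^ P := by
  have hx4q : x ^ 4 ≤ q ^ 16 := by
    calc x ^ 4 ≤ (Q ^ 2) ^ 4 := pow_le_pow_left₀ hx0 hxQ 4
      _ ≤ ((q ^ 2) ^ 2) ^ 4 :=
          pow_le_pow_left₀ (by positivity) (pow_le_pow_left₀ hQ0 hQq 2) 4
      _ = q ^ 16 := by ring
  calc c * (m + 1) ^ g ≤ q * (q ^ 16) ^ g :=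
        mul_le_mul hc (pow_le_pow_left₀ (by linarith) (hmx.trans hx4q) g) (by positivity)
          (by linarith)
    _ = q ^ P := by rw [hP, ← pow_mul]; ring
    _ ≤ (q ^ F) ^ P := by
        apply pow_le_pow_left₀ (by linarith)
        exact le_self_pow₀ hq1 (by omega)

lemma Nexp {lam x : ℝ} (hexp : Real.exp lam = x) (k : ℕ) : x ^ k = Real.exp (lam * k) := by
  rw [← hexp, ← Real.exp_nat_mul, mul_comm]

/-- the choice of the parameters -/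
lemma params (d c g F P M B κn N m : ℕ) (κ c0 x lam y : ℝ) (hd2 : 2 ≤ d) (hF : 1 ≤ F)
    (hP : P = 16 * g + 1) (hκn : κn = 2 * g + 13) (hκ : κ = (κn : ℝ))
    (hc0 : c0 = 4 * d * κ * F * (g + 1)) (hM : M = F * (g * P + g) + 4 * g + 24) (hB : 10 ≤ B)
    (hexp : Real.exp lam = x) (hy : y = Real.exp (x / κ)) (hNy : (N : ℝ) = y ^ κn)
    (e1 : x ^ M ≤ y) (e3 : 1 ≤ lam) (e4 : (B : ℝ) + c ≤ x / (2 * c0 * lam)) (e5 : 10 ≤ y)
    (e6 : 10 ≤ x) (e7 : 8 * F * lam ^ 2 ≤ x / κ) (e8 : x ≤ (x / (2 * c0 * lam)) ^ 2)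
    (e9 : 8 * lam ≤ x) (hcase : (m : ℝ) < x ^ 3) :
    ∃ Q ℓ e Z : ℕ, B + c ≤ Q ∧ x / (2 * c0 * lam) ≤ Q ∧ (Q : ℝ) ≤ x ∧ (x ^ 4) ^ (d * Q) ≤ y ∧
      (∀ n : ℕ, (n : ℝ) ≤ y → n ≤ e) ∧ (ℓ : ℝ) ≤ 4 * lam ∧ m < 3 ^ ℓ ∧ c * (Q + 1) ≤ 2 ^ ℓ ∧
      2 * ℓ * (Q ^ F) ^ (2 * ℓ) * (e * (Q ^ F) ^ (g * Q + g * P + g) + 1) < Z ∧
      c * (e + 1) ^ g * (m + 1) ^ g * (Q ^ F) ^ (g * Q + g * P) * ((Q ^ F) ^ Q * Z + 1) ≤ N ∧
      ∀ q : ℕ, 1 ≤ q → Q ≤ q * q → c ≤ q → c * (m + 1) ^ g ≤ (q ^ F) ^ P := by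
  have hdR : (2 : ℝ) ≤ d := by exact_mod_cast hd2
  have hκ13 : 13 ≤ κ := by
    rw [hκ]
    exact_mod_cast (by omega : 13 ≤ κn)
  have hκ0 : 0 < κ := by linarith
  have hFR : (1 : ℝ) ≤ F := by exact_mod_cast hF
  have hgR : (0 : ℝ) ≤ g := Nat.cast_nonneg _
  have hc02 : 2 ≤ c0 := by rw [hc0]; exact c0_ge hdR hκ13 hFR hgR
  have hc00 : 0 < c0 := by linarith
  have hlam0 : 0 < lam := by linarith
  have hx0 : 0 < x := by linarith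
  have hx1 : 1 ≤ x := by linarith
  obtain ⟨Q, hQ⟩ : ∃ Q : ℕ, Q = ⌊x / (c0 * lam)⌋₊ := ⟨_, rfl⟩
  obtain ⟨ℓ, hℓ⟩ : ∃ ℓ : ℕ, ℓ = ⌊3 * lam⌋₊ + 1 := ⟨_, rfl⟩
  obtain ⟨e, he⟩ : ∃ e : ℕ, e = ⌊y⌋₊ := ⟨_, rfl⟩
  have hQle : (Q : ℝ) ≤ x / (c0 * lam) := by rw [hQ]; exact Nat.floor_le (by positivity)
  have hQgt : x / (c0 * lam) < Q + 1 := by rw [hQ]; exact Nat.lt_floor_add_one _
  have hBc : (10 : ℝ) ≤ x / (2 * c0 * lam) := by
    refine le_trans ?_ e4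
    have h1 : (10 : ℝ) ≤ (B : ℝ) := by exact_mod_cast hB
    have h2 : (0 : ℝ) ≤ c := Nat.cast_nonneg _
    linarith
  have hQbig : x / (2 * c0 * lam) ≤ Q := by
    have h1 : x / (2 * c0 * lam) = (x / (c0 * lam)) / 2 := by field_simp
    linarith
  have hQB : B + c ≤ Q := by
    have h0 := e4.trans hQbig
    exact_mod_cast h0
  have hQlam : lam * (Q : ℝ) ≤ x / (4 * d * κ * F * (g + 1)) := by
    rw [← hc0]
    calc lam * (Q : ℝ) ≤ lam * (x / (c0 * lam)) := mul_le_mul_of_nonneg_left hQle hlam0.le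
      _ = x / c0 := by field_simp
  have hQx2 : (Q : ℝ) ≤ x / 2 := by
    refine hQle.trans ?_
    apply div_le_div_of_nonneg_left hx0.le (by norm_num)
    have : 2 * 1 ≤ c0 * lam := mul_le_mul hc02 e3 (by norm_num) hc00.le
    linarith
  have hQx : (Q : ℝ) ≤ x := by linarith
  have hQ0 : (0 : ℝ) ≤ Q := Nat.cast_nonneg _
  have hQ1' : (1 : ℝ) ≤ Q := by exact_mod_cast (by omega : 1 ≤ Q)
  have hy1 : 1 ≤ y := by linarith
  have hy0 : 0 ≤ y := by linarith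
  have hy2 : 2 ≤ y := by linarith
  have hpowx : ∀ k : ℕ, k ≤ M → x ^ k ≤ y := fun k hk =>
    (pow_le_pow_right₀ hx1 hk).trans e1
  have hey : (e : ℝ) ≤ y := by rw [he]; exact Nat.floor_le hy0
  have he0 : (0 : ℝ) ≤ e := Nat.cast_nonneg _
  -- powers of `x` with exponent `k Q`
  have hpowkQ : ∀ k : ℕ, k ≤ 4 * d * F * (g + 1) → x ^ (k * Q) ≤ y := by
    intro k hk
    rw [Nexp hexp, hy]
    apply Real.exp_le_exp.2
    have hk' : (k : ℝ) ≤ 4 * d * F * (g + 1) := by exact_mod_cast hk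
    push_cast
    calc lam * ((k : ℝ) * Q) = k * (lam * Q) := by ring
      _ ≤ (4 * d * F * (g + 1)) * (x / (4 * d * κ * F * (g + 1))) :=
          mul_le_mul hk' hQlam (by positivity) (by positivity)
      _ = x / κ := by field_simp
  have hpowQ : (x ^ 4) ^ (d * Q) ≤ y := by
    rw [← pow_mul, ← mul_assoc]
    apply hpowkQ
    calc 4 * d = 4 * d * 1 * 1 := by ring
      _ ≤ 4 * d * F * (g + 1) := by gcongr; omega
  have hxF : ∀ k : ℕ, ((Q : ℝ) ^ F) ^ k ≤ x ^ (F * k) := by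
    intro k
    rw [← pow_mul]
    exact pow_le_pow_left₀ hQ0 hQx _
  have hpowg : ((Q : ℝ) ^ F) ^ (g * Q) ≤ y := by
    refine (hxF _).trans ?_
    rw [← mul_assoc]
    apply hpowkQ
    calc F * g = 1 * F * g := by ring
      _ ≤ (4 * d) * F * (g + 1) := by gcongr <;> omega
  have hpow1 : ((Q : ℝ) ^ F) ^ Q ≤ y := by
    refine (hxF _).trans ?_
    apply hpowkQ
    calc F = 1 * F * 1 := by ring
      _ ≤ (4 * d) * F * (g + 1) := by gcongr <;> omega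
  have hmx : (m : ℝ) + 1 ≤ x ^ 4 := Nm e6 hcase.le
  have hm0 : (0 : ℝ) ≤ m := Nat.cast_nonneg _
  -- bounds for ℓ
  have hℓle : (ℓ : ℝ) ≤ 4 * lam := by
    rw [hℓ]; push_cast
    have := Nat.floor_le (show 0 ≤ 3 * lam by positivity)
    linarith
  have hℓgt : 3 * lam < ℓ := by rw [hℓ]; push_cast; exact Nat.lt_floor_add_one _
  have hℓ0 : (0 : ℝ) ≤ ℓ := Nat.cast_nonneg _
  have hℓm : m < 3 ^ ℓ := by
    have h1 : x ^ 3 ≤ (3 : ℝ) ^ ℓ := by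
      have h3 : (3 : ℝ) ^ ℓ = Real.exp (ℓ * Real.log 3) := by
        rw [Real.exp_nat_mul, Real.exp_log (by norm_num)]
      rw [Nexp hexp, h3]
      apply Real.exp_le_exp.2
      have h5 : 1 ≤ Real.log 3 := by
        rw [Real.le_log_iff_exp_le (by norm_num)]
        exact Real.exp_one_lt_three.le
      push_cast
      nlinarith
    have : (m : ℝ) < (3 : ℝ) ^ ℓ := lt_of_lt_of_le hcase h1
    exact_mod_cast this
  have hcQ : (c : ℝ) ≤ Q := by exact_mod_cast (by omega : c ≤ Q)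
  have hℓ2 : c * (Q + 1) ≤ 2 ^ ℓ := by
    have h1 : x ^ 2 ≤ (2 : ℝ) ^ ℓ := by
      have h3 : (2 : ℝ) ^ ℓ = Real.exp (ℓ * Real.log 2) := by
        rw [Real.exp_nat_mul, Real.exp_log (by norm_num)]
      rw [Nexp hexp, h3]
      apply Real.exp_le_exp.2
      have h5 : 0.69 ≤ Real.log 2 := by
        have := Real.log_two_gt_d9
        linarith
      push_cast
      nlinarith
    have h2 : (c : ℝ) * (Q + 1) ≤ x * x :=
      mul_le_mul (hcQ.trans hQx) (by linarith) (by positivity) hx0.le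
    have h3 : (c : ℝ) * (Q + 1) ≤ (2 : ℝ) ^ ℓ := by
      calc (c : ℝ) * (Q + 1) ≤ x * x := h2
        _ = x ^ 2 := by ring
        _ ≤ _ := h1
    exact_mod_cast h3
  have hQM : ∀ k : ℕ, F * k ≤ M → ((Q : ℝ) ^ F) ^ k ≤ y := fun k hk =>
    (hxF k).trans (hpowx _ hk)
  -- the scale Z
  obtain ⟨H, hH⟩ : ∃ H : ℕ, H = e * (Q ^ F) ^ (g * Q + g * P + g) + 1 := ⟨_, rfl⟩
  have hHle : (H : ℝ) ≤ y ^ 4 := by
    have h0 : g * Q + g * P + g = g * Q + (g * P + g) := by ring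
    have h3 := hQM (g * P + g) (by omega)
    have h1 : (e : ℝ) * (((Q : ℝ) ^ F) ^ (g * Q) * ((Q : ℝ) ^ F) ^ (g * P + g)) ≤ y * (y * y) :=
      mul_le_mul hey (mul_le_mul hpowg h3 (by positivity) hy0) (by positivity) hy0
    rw [hH]; push_cast
    rw [h0, pow_add]
    have := N4 hy2
    linarith
  have hH0 : (0 : ℝ) ≤ H := Nat.cast_nonneg _
  have hQ2l : ((Q : ℝ) ^ F) ^ (2 * ℓ) ≤ y := by
    refine (hxF _).trans ?_
    rw [Nexp hexp, hy]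
    apply Real.exp_le_exp.2
    push_cast
    calc lam * ((F : ℝ) * (2 * (ℓ : ℝ))) ≤ lam * ((F : ℝ) * (2 * (4 * lam))) := by gcongr
      _ = 8 * F * lam ^ 2 := by ring
      _ ≤ x / κ := e7
  have hxy : x ≤ y := by
    have := hpowx 1 (by omega)
    rwa [pow_one] at this
  obtain ⟨Z, hZ⟩ : ∃ Z : ℕ, Z = 2 * ℓ * (Q ^ F) ^ (2 * ℓ) * H + 1 := ⟨_, rfl⟩
  have hZle : (Z : ℝ) ≤ y ^ 7 := by
    have h0 : 2 * (ℓ : ℝ) ≤ y := by linarith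
    have h1 : 2 * (ℓ : ℝ) * ((Q : ℝ) ^ F) ^ (2 * ℓ) * H ≤ y * y * y ^ 4 :=
      mul_le_mul (mul_le_mul h0 hQ2l (by positivity) hy0) hHle hH0 (by positivity)
    rw [hZ]; push_cast
    have := N7 hy2
    linarith
  have hZ0 : (0 : ℝ) ≤ Z := Nat.cast_nonneg _
  have hcond : c * (e + 1) ^ g * (m + 1) ^ g * (Q ^ F) ^ (g * Q + g * P) *
      ((Q ^ F) ^ Q * Z + 1) ≤ N := by
    have g1 : (c : ℝ) ≤ y := by linarith
    have g2 : ((e : ℝ) + 1) ^ g ≤ y ^ (2 * g) := Ng2 g he0 hy2 hey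
    have g3 : ((m : ℝ) + 1) ^ g ≤ y := Ng3 g hm0 hmx (hpowx _ (by omega))
    have g4 : ((Q : ℝ) ^ F) ^ (g * P) ≤ y := hQM _ (by
      have : F * (g * P) ≤ F * (g * P + g) := Nat.mul_le_mul_left _ (by omega)
      omega)
    have g5 : ((Q : ℝ) ^ F) ^ Q * Z + 1 ≤ y ^ 9 := by
      have h1 : ((Q : ℝ) ^ F) ^ Q * Z ≤ y * y ^ 7 := mul_le_mul hpow1 hZle hZ0 hy0
      have := N9 hy2
      linarith
    have key : (c : ℝ) * ((e : ℝ) + 1) ^ g * ((m : ℝ) + 1) ^ g *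
          (((Q : ℝ) ^ F) ^ (g * Q) * ((Q : ℝ) ^ F) ^ (g * P)) * (((Q : ℝ) ^ F) ^ Q * Z + 1)
        ≤ y * y ^ (2 * g) * y * (y * y) * y ^ 9 :=
      L3 hy0 (Nat.cast_nonneg _) (by positivity) (by positivity) (by positivity) (by positivity)
        (by positivity) g1 g2 g3 hpowg g4 g5
    have e10 : y * y ^ (2 * g) * y * (y * y) * y ^ 9 = (N : ℝ) := by
      rw [hNy, hκn]; ring
    rw [e10, ← pow_add] at key
    exact_mod_cast key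
  refine ⟨Q, ℓ, e, Z, hQB, hQbig, hQx, hpowQ, ?_, hℓle, hℓm, hℓ2, ?_, hcond, ?_⟩
  · intro n hn
    rw [he]
    exact Nat.le_floor hn
  · rw [hZ, ← hH]
    exact Nat.lt_succ_self _
  · intro q hq1 hqq hcq
    have hqqr : (Q : ℝ) ≤ (q : ℝ) ^ 2 := by
      rw [pow_two]; exact_mod_cast hqq
    have hq1r : (1 : ℝ) ≤ q := by exact_mod_cast hq1
    have hcqr : (c : ℝ) ≤ q := by exact_mod_cast hcq
    have hxQ : x ≤ (Q : ℝ) ^ 2 := e8.trans (pow_le_pow_left₀ (by positivity) hQbig 2)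
    have := Nfin g F P hF hP hm0 hq1r hcqr hx0.le hQ0 hxQ hqqr hmx
    exact_mod_cast this

end Pool.Agent.TH698.A3
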